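import Pool.Agent.helper11.TX.Spec2

/-! Row NP -/

namespace Pool.Agent.helper11.TX

open Finset

theorem NP_pt (N s t : ℕ) (hs : s ∈ S6 N) (ht : t ∈ S6 N) :
    (if ¬ Nat.Coprime s t then (s : ℝ) * t else 0) ≤
      ∑ l ∈ Icc 5 N with l.Prime, (if l ∣ s then (s : ℝ) else 0) * (if l ∣ t then (t : ℝ) else 0) := by
  have hnn : ∀ l ∈ (Icc 5 N).filter (fun l => l.Prime),
      0 ≤ (if l ∣ s then (s : ℝ) else 0) * (if l ∣ t then (t : ℝ) else 0) := by
    intro l _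
    refine mul_nonneg ?_ ?_ <;> split_ifs <;> positivity
  by_cases h : ¬ Nat.Coprime s t
  · rw [if_pos h]
    unfold S6 at hs ht
    rw [mem_filter, mem_Icc] at hs ht
    obtain ⟨l, hl, hls, hlt⟩ := Nat.Prime.not_coprime_iff_dvd.mp h
    have hl5 : 5 ≤ l := by
      by_contra hc
      have h6 : l ∣ 6 := by
        have := hl.two_le
        interval_cases l
        · norm_num
        · norm_num
        · exact absurd hl (by norm_num)
      have h7 := Nat.dvd_gcd hls h6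
      rw [hs.2] at h7
      exact hl.one_lt.ne' (Nat.dvd_one.mp h7)
    have hlN : l ≤ N := (Nat.le_of_dvd (by omega) hls).trans hs.1.2
    have hmem : l ∈ (Icc 5 N).filter (fun l => l.Prime) :=
      mem_filter.mpr ⟨mem_Icc.mpr ⟨hl5, hlN⟩, hl⟩
    have h8 := Finset.single_le_sum hnn hmem
    rw [if_pos hls, if_pos hlt] at h8
    exact h8
  · rw [if_neg h]
    exact Finset.sum_nonneg hnn

theorem NP (h1 : NS_stmt) (h2 : NT_stmt) : NP_stmt := by
  refine ⟨200000000, fun N hN => ?_⟩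
  have hN' : (200000000 : ℝ) ≤ N := by exact_mod_cast hN
  have hN0 : (0 : ℝ) < N := by linarith
  have e1 : ∑ s ∈ S6 N, ∑ t ∈ S6 N with ¬ Nat.Coprime s t, (s : ℝ) * t ≤
      ∑ l ∈ Icc 5 N with l.Prime, (∑ s ∈ S6 N with l ∣ s, (s : ℝ)) ^ 2 := by
    calc ∑ s ∈ S6 N, ∑ t ∈ S6 N with ¬ Nat.Coprime s t, (s : ℝ) * t
        = ∑ s ∈ S6 N, ∑ t ∈ S6 N, if ¬ Nat.Coprime s t then (s : ℝ) * t else 0 := by
          refine sum_congr rfl fun s _ => ?_
          rw [sum_filter]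
      _ ≤ ∑ s ∈ S6 N, ∑ t ∈ S6 N, ∑ l ∈ Icc 5 N with l.Prime,
          (if l ∣ s then (s : ℝ) else 0) * (if l ∣ t then (t : ℝ) else 0) :=
          sum_le_sum fun s hs => sum_le_sum fun t ht => NP_pt N s t hs ht
      _ = ∑ l ∈ Icc 5 N with l.Prime, ∑ s ∈ S6 N, ∑ t ∈ S6 N,
          (if l ∣ s then (s : ℝ) else 0) * (if l ∣ t then (t : ℝ) else 0) := by
          rw [sum_comm' (s := (Icc 5 N).filter (fun l => l.Prime)) (t := fun _ => S6 N)
            (t' := S6 N) (s' := fun _ => (Icc 5 N).filter (fun l => l.Prime))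
            (fun _ _ => by tauto)]
          refine sum_congr rfl fun s _ => ?_
          rw [sum_comm]
      _ = ∑ l ∈ Icc 5 N with l.Prime, (∑ s ∈ S6 N with l ∣ s, (s : ℝ)) ^ 2 := by
          refine sum_congr rfl fun l _ => ?_
          rw [← sum_mul_sum, sum_filter, sq]
  have e2 : ∀ l ∈ (Icc 5 N).filter (fun l => l.Prime),
      (∑ s ∈ S6 N with l ∣ s, (s : ℝ)) ^ 2 ≤
        601 / 600 * ((N : ℝ) ^ 4 / 36) * (1 / (l : ℝ) ^ 2) + 601 * (N : ℝ) ^ 2 := by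
    intro l hl
    rw [mem_filter, mem_Icc] at hl
    have h3 := h1.2 N l hl.1.1 hl.2
    have hl0 : (0 : ℝ) < l := by
      have : 0 < l := by omega
      exact_mod_cast this
    have h4 : (0 : ℝ) ≤ ∑ s ∈ S6 N with l ∣ s, (s : ℝ) := sum_nonneg fun _ _ => by positivity
    have h5 : (∑ s ∈ S6 N with l ∣ s, (s : ℝ)) ^ 2 ≤ ((N : ℝ) ^ 2 / (6 * l) + N) ^ 2 :=
      pow_le_pow_left₀ h4 h3 2
    have h6 : 601 / 600 * ((N : ℝ) ^ 4 / 36) * (1 / (l : ℝ) ^ 2) =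
        601 / 600 * ((N : ℝ) ^ 2 / (6 * l)) ^ 2 := by
      field_simp
      ring
    rw [h6]
    refine h5.trans ?_
    nlinarith [sq_nonneg ((N : ℝ) ^ 2 / (6 * l) - 600 * N)]
  have hcard : (((Icc 5 N).filter (fun l => l.Prime)).card : ℝ) ≤ N := by
    have h3 : ((Icc 5 N).filter (fun l => l.Prime)).card ≤ N := by
      refine (card_filter_le _ _).trans ?_
      rw [Nat.card_Icc]
      omega
    exact_mod_cast h3
  refine e1.trans ((sum_le_sum e2).trans ?_)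
  rw [sum_add_distrib, ← mul_sum, sum_const, nsmul_eq_mul]
  have h3 := (h2 N).1
  have h4 : 601 / 600 * ((N : ℝ) ^ 4 / 36) * ∑ l ∈ Icc 5 N with l.Prime, 1 / (l : ℝ) ^ 2 ≤
      601 / 600 * ((N : ℝ) ^ 4 / 36) * (3 / 25) :=
    mul_le_mul_of_nonneg_left h3 (by positivity)
  have h5 : (((Icc 5 N).filter (fun l => l.Prime)).card : ℝ) * (601 * (N : ℝ) ^ 2) ≤
      N * (601 * (N : ℝ) ^ 2) := mul_le_mul_of_nonneg_right hcard (by positivity)
  have h6 : (N : ℝ) * (601 * (N : ℝ) ^ 2) ≤ 301 / 53820000 * (N : ℝ) ^ 4 := by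
    have h7 : (601 : ℝ) ≤ 301 / 53820000 * N := by linarith
    have h8 : (0 : ℝ) ≤ (N : ℝ) ^ 3 := by positivity
    calc (N : ℝ) * (601 * (N : ℝ) ^ 2) = 601 * (N : ℝ) ^ 3 := by ring
      _ ≤ (301 / 53820000 * N) * (N : ℝ) ^ 3 := mul_le_mul_of_nonneg_right h7 h8
      _ = 301 / 53820000 * (N : ℝ) ^ 4 := by ring
  have h9 : 601 / 600 * ((N : ℝ) ^ 4 / 36) * (3 / 25) + 301 / 53820000 * (N : ℝ) ^ 4 =
      (N : ℝ) ^ 4 / 299 := by ring
  linarith

end Pool.Agent.helper11.TX
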